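import Pool.Agent.Lib_helper59.HT.Defs2

/-!
# Block C1: the support of a mod `p` cycle is a closed family of triangles
-/

set_option autoImplicit false

open Finset Matrix

namespace Pool.Agent.HT

lemma c1_chi_swap {n : ℕ} (a b x y : Fin n) : chi a b (y, x) = - chi a b (x, y) := by
  unfold chi
  have e1 : ((y, x) = (a, b)) ↔ ((x, y) = (b, a)) := by
    simp only [Prod.mk.injEq]; tauto
  have e2 : ((y, x) = (b, a)) ↔ ((x, y) = (a, b)) := by
    simp only [Prod.mk.injEq]; tauto
  simp only [e1, e2]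
  ring

lemma c1_bd_swap {n : ℕ} (t : Tri n) (x y : Fin n) : bd t (y, x) = - bd t (x, y) := by
  unfold bd
  rw [c1_chi_swap _ _ x y, c1_chi_swap _ _ x y, c1_chi_swap _ _ x y]
  ring

lemma c1_bd_self {n : ℕ} (t : Tri n) (x : Fin n) : bd t (x, x) = 0 := by
  have := c1_bd_swap t x x
  omega

lemma c1_sum_chi {n : ℕ} (a b u : Fin n) :
    ∑ v, chi a b (u, v) = (if u = a then 1 else 0) - (if u = b then 1 else 0) := by
  unfold chi
  rw [Finset.sum_sub_distrib]
  congr 1
  · by_cases h : u = a <;> simp [h]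
  · by_cases h : u = b <;> simp [h]

lemma c1_sum_bd {n : ℕ} (t : Tri n) (u : Fin n) : ∑ v, bd t (u, v) = 0 := by
  unfold bd
  rw [Finset.sum_add_distrib, Finset.sum_add_distrib, c1_sum_chi, c1_sum_chi, c1_sum_chi]
  ring

/-- value of the boundary of a nondegenerate triple -/
lemma c1_bd_mem {n : ℕ} {t : Tri n} (ht : (tset t).card = 3) {a b : Fin n} (hab : a ≠ b)
    (ha : a ∈ tset t) (hb : b ∈ tset t) : bd t (a, b) = 1 ∨ bd t (a, b) = -1 := by
  obtain ⟨x, y, z⟩ := t
  simp only [tset] at ht ha hb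
  have hxy : x ≠ y := by
    rintro rfl
    have : ({x, x, z} : Finset (Fin n)).card ≤ 2 := by
      rw [Finset.insert_eq_of_mem (by simp)]
      exact Finset.card_le_two
    omega
  have hyz : y ≠ z := by
    rintro rfl
    have : ({x, y, y} : Finset (Fin n)).card ≤ 2 := by
      rw [show ({x, y, y} : Finset (Fin n)) = {x, y} by simp]
      exact Finset.card_le_two
    omega
  have hxz : x ≠ z := by
    rintro rfl
    have : ({x, y, x} : Finset (Fin n)).card ≤ 2 := by
      rw [show ({x, y, x} : Finset (Fin n)) = {x, y} by ext; simp; tauto]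
      exact Finset.card_le_two
    omega
  simp only [Finset.mem_insert, Finset.mem_singleton] at ha hb
  unfold bd chi
  simp only [Prod.mk.injEq]
  rcases ha with rfl | rfl | rfl <;> rcases hb with rfl | rfl | rfl <;>
    simp_all [eq_comm]

lemma c1_bd_nmem {n : ℕ} {t : Tri n} {a b : Fin n} (h : ¬ (a ∈ tset t ∧ b ∈ tset t)) :
    bd t (a, b) = 0 := by
  obtain ⟨x, y, z⟩ := t
  simp only [tset, Finset.mem_insert, Finset.mem_singleton] at h
  unfold bd chi
  simp only [Prod.mk.injEq]
  by_cases h1 : a = x <;> by_cases h2 : a = y <;> by_cases h3 : a = z <;>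
  by_cases h4 : b = x <;> by_cases h5 : b = y <;> by_cases h6 : b = z <;>
    simp_all

lemma c1_chi_neg {n : ℕ} (a b : Fin n) (e : Fin n × Fin n) : chi b a e = - chi a b e := by
  unfold chi
  ring

lemma c1_distinct {n : ℕ} {x y z : Fin n} (h : ({x, y, z} : Finset (Fin n)).card = 3) :
    x ≠ y ∧ y ≠ z ∧ x ≠ z := by
  refine ⟨?_, ?_, ?_⟩
  · rintro rfl
    have : ({x, x, z} : Finset (Fin n)).card ≤ 2 := by
      rw [Finset.insert_eq_of_mem (by simp)]
      exact Finset.card_le_two
    omega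
  · rintro rfl
    have : ({x, y, y} : Finset (Fin n)).card ≤ 2 := by
      rw [show ({x, y, y} : Finset (Fin n)) = {x, y} by simp]
      exact Finset.card_le_two
    omega
  · rintro rfl
    have : ({x, y, x} : Finset (Fin n)).card ≤ 2 := by
      rw [show ({x, y, x} : Finset (Fin n)) = {x, y} by ext; simp; tauto]
      exact Finset.card_le_two
    omega

lemma c1_sign {n : ℕ} {t t' : Tri n} (h : tset t = tset t') (h3 : (tset t).card = 3) :
    ∃ ε : ℤ, (ε = 1 ∨ ε = -1) ∧ ∀ e, bd t e = ε * bd t' e := by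
  have h3' : (tset t').card = 3 := h ▸ h3
  obtain ⟨x, y, z⟩ := t
  obtain ⟨x', y', z'⟩ := t'
  have hx : x ∈ tset (x', y', z') := h ▸ (by simp [tset])
  have hy : y ∈ tset (x', y', z') := h ▸ (by simp [tset])
  have hz : z ∈ tset (x', y', z') := h ▸ (by simp [tset])
  simp only [tset] at h3 h3' hx hy hz
  obtain ⟨a1, a2, a3⟩ := c1_distinct h3
  obtain ⟨b1, b2, b3⟩ := c1_distinct h3'
  simp only [Finset.mem_insert, Finset.mem_singleton] at hx hy hz
  rcases hx with rfl | rfl | rfl <;> rcases hy with rfl | rfl | rfl <;>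
    rcases hz with rfl | rfl | rfl <;> try exact absurd rfl (by assumption)
  · exact ⟨1, Or.inl rfl, fun e => by rw [one_mul]⟩
  · refine ⟨-1, Or.inr rfl, fun e => ?_⟩
    unfold bd
    simp only
    rw [c1_chi_neg y z, c1_chi_neg x y, c1_chi_neg z x]
    ring
  · refine ⟨-1, Or.inr rfl, fun e => ?_⟩
    unfold bd
    simp only
    rw [c1_chi_neg y x, c1_chi_neg z y, c1_chi_neg x z]
    ring
  · refine ⟨1, Or.inl rfl, fun e => ?_⟩
    unfold bd
    simp only
    ring
  · refine ⟨1, Or.inl rfl, fun e => ?_⟩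
    unfold bd
    simp only
    ring
  · refine ⟨-1, Or.inr rfl, fun e => ?_⟩
    unfold bd
    simp only
    rw [c1_chi_neg y x, c1_chi_neg z y, c1_chi_neg x z]
    ring

lemma c1_bd_degenerate {n : ℕ} (t : Tri n) (h : (tset t).card ≠ 3) (e : Fin n × Fin n) :
    bd t e = 0 := by
  obtain ⟨x, y, z⟩ := t
  have h' : x = y ∨ y = z ∨ x = z := by
    by_contra hne
    push Not at hne
    apply h
    simp only [tset]
    rw [Finset.card_eq_three]
    exact ⟨x, y, z, hne.1, hne.2.2, hne.2.1, rfl⟩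
  unfold bd
  simp only
  rcases h' with rfl | rfl | rfl
  · rw [c1_chi_neg x z]; unfold chi; ring
  · rw [c1_chi_neg x y]; unfold chi; ring
  · rw [c1_chi_neg x y]; unfold chi; ring

lemma c1_indep {n : ℕ} {τ : E' n → Tri n} (hdet : (M τ).det ≠ 0) (v : E' n → ℤ)
    (h : ∀ e, ∑ i, v i * M τ i e = 0) : v = 0 := by
  refine Matrix.eq_zero_of_vecMul_eq_zero hdet ?_
  ext e
  exact h e

lemma c1_card {n : ℕ} {τ : E' n → Tri n} (hdet : (M τ).det ≠ 0) (i : E' n) :
    (tset (τ i)).card = 3 := by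
  by_contra h
  apply hdet
  refine Matrix.det_eq_zero_of_row_eq_zero i fun e => ?_
  exact c1_bd_degenerate _ h _

lemma c1_inj {n : ℕ} {τ : E' n → Tri n} (hdet : (M τ).det ≠ 0) {i j : E' n}
    (h : tset (τ i) = tset (τ j)) : i = j := by
  by_contra hij
  obtain ⟨ε, hε, hb⟩ := c1_sign h (c1_card hdet i)
  have h0 := c1_indep hdet (Pi.single i 1 - Pi.single j ε) (fun e => by
    simp only [Pi.sub_apply, sub_mul, Finset.sum_sub_distrib]
    rw [Finset.sum_eq_single i, Finset.sum_eq_single j]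
    · rw [Pi.single_eq_same, Pi.single_eq_same, one_mul]
      have := hb e.1
      change bd (τ i) e.1 - ε * bd (τ j) e.1 = 0
      rw [this, sub_self]
    · intro b _ hb
      rw [Pi.single_eq_of_ne hb, zero_mul]
    · intro hb; exact absurd (Finset.mem_univ _) hb
    · intro b _ hb
      rw [Pi.single_eq_of_ne hb, zero_mul]
    · intro hb; exact absurd (Finset.mem_univ _) hb)
  have h1 := congrFun h0 i
  rw [Pi.sub_apply, Pi.single_eq_same, Pi.single_eq_of_ne hij] at h1
  simp at h1

/-- divisibility of the boundary extends to all pairs -/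
lemma c1_all {n p : ℕ} {τ : E' n → Tri n} {c : E' n → ℤ}
    (h2 : ∀ e, (p : ℤ) ∣ ∑ i, c i * M τ i e) (a b : Fin n) :
    (p : ℤ) ∣ ∑ i, c i * bd (τ i) (a, b) := by
  have key : ∀ a b : Fin n, 0 < a.val → 0 < b.val → (p : ℤ) ∣ ∑ i, c i * bd (τ i) (a, b) := by
    intro a b ha hb
    rcases lt_trichotomy a b with h | h | h
    · exact h2 ⟨(a, b), ha, h⟩
    · subst h
      simp [c1_bd_self]
    · have := h2 ⟨(b, a), hb, h⟩
      have h3 : ∑ i, c i * bd (τ i) (a, b) = - ∑ i, c i * M τ i ⟨(b, a), hb, h⟩ := by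
        rw [← Finset.sum_neg_distrib]
        refine Finset.sum_congr rfl fun i _ => ?_
        rw [c1_bd_swap (τ i) b a]
        change _ = -(c i * bd (τ i) (b, a))
        ring
      rw [h3]
      exact (dvd_neg).mpr this
  have root : ∀ a b : Fin n, 0 < a.val → b.val = 0 →
      (p : ℤ) ∣ ∑ i, c i * bd (τ i) (a, b) := by
    intro a b ha hb
    have h3 : ∑ v : Fin n, ∑ i, c i * bd (τ i) (a, v) = 0 := by
      rw [Finset.sum_comm]
      refine Finset.sum_eq_zero fun i _ => ?_
      rw [← Finset.mul_sum, c1_sum_bd, mul_zero]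
    rw [← Finset.add_sum_erase _ (fun v : Fin n => ∑ i, c i * bd (τ i) (a, v))
      (Finset.mem_univ b)] at h3
    have h4 : ∑ i, c i * bd (τ i) (a, b) =
        - ∑ v ∈ Finset.univ.erase b, ∑ i, c i * bd (τ i) (a, v) := by linarith
    rw [h4]
    refine (dvd_neg).mpr (Finset.dvd_sum fun v hv => key a v ha ?_)
    have hne : v ≠ b := (Finset.mem_erase.mp hv).1
    rcases Nat.eq_zero_or_pos v.val with h | h
    · exact absurd (Fin.ext (h.trans hb.symm)) hne
    · exact h
  rcases Nat.eq_zero_or_pos a.val with ha | ha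
  · rcases Nat.eq_zero_or_pos b.val with hb | hb
    · have : a = b := Fin.ext (ha.trans hb.symm)
      subst this
      simp [c1_bd_self]
    · have := root b a hb ha
      have h3 : ∑ i, c i * bd (τ i) (a, b) = - ∑ i, c i * bd (τ i) (b, a) := by
        rw [← Finset.sum_neg_distrib]
        refine Finset.sum_congr rfl fun i _ => ?_
        rw [c1_bd_swap (τ i) b a]
        ring
      rw [h3]
      exact (dvd_neg).mpr this
  · rcases Nat.eq_zero_or_pos b.val with hb | hb
    · exact root a b ha hb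
    · exact key a b ha hb

/-- BLOCK C1 -/
theorem cycle_closed_pr (n p : ℕ) (hp : p.Prime) (τ : E' n → Tri n) (hdet : (M τ).det ≠ 0)
    (c : E' n → ℤ) (h1 : ∃ i, ¬ (p : ℤ) ∣ c i) (h2 : ∀ e, (p : ℤ) ∣ ∑ i, c i * M τ i e) :
    ∃ C : Finset (Finset (Fin n)), Cl C ∧ C.card = cnt (fun i => ¬ (p : ℤ) ∣ c i) ∧
      ∀ t ∈ C, ∃ i, tset (τ i) = t := by
  classical
  refine ⟨(Finset.univ.filter fun i => ¬ (p : ℤ) ∣ c i).image (fun i => tset (τ i)),
    ⟨?_, ?_, ?_⟩, ?_, ?_⟩
  · obtain ⟨i, hi⟩ := h1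
    exact ⟨tset (τ i), Finset.mem_image.mpr ⟨i, by simp [hi], rfl⟩⟩
  · intro t ht
    obtain ⟨i, -, rfl⟩ := Finset.mem_image.mp ht
    exact c1_card hdet i
  · intro t ht e he hec
    obtain ⟨i, hi, rfl⟩ := Finset.mem_image.mp ht
    have hi' : ¬ (p : ℤ) ∣ c i := (Finset.mem_filter.mp hi).2
    obtain ⟨a, b, hab, rfl⟩ := Finset.card_eq_two.mp hec
    have ha : a ∈ tset (τ i) := he (by simp)
    have hb : b ∈ tset (τ i) := he (by simp)
    by_contra hcon
    push Not at hcon
    have hz : ∀ j, j ≠ i → (p : ℤ) ∣ c j * bd (τ j) (a, b) := by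
      intro j hj
      by_cases hpj : (p : ℤ) ∣ c j
      · exact Dvd.dvd.mul_right hpj _
      · have h5 : ¬ (a ∈ tset (τ j) ∧ b ∈ tset (τ j)) := by
          rintro ⟨h6, h7⟩
          refine hcon (tset (τ j)) (Finset.mem_image.mpr ⟨j, by simp [hpj], rfl⟩) ?_ ?_
          · intro h8
            exact hj (c1_inj hdet h8)
          · intro v hv
            rw [Finset.mem_insert, Finset.mem_singleton] at hv
            rcases hv with rfl | rfl
            · exact h6
            · exact h7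
        rw [c1_bd_nmem h5, mul_zero]
        exact dvd_zero _
    have h9 := c1_all h2 a b
    rw [← Finset.add_sum_erase _ _ (Finset.mem_univ i)] at h9
    have h10 : (p : ℤ) ∣ ∑ j ∈ Finset.univ.erase i, c j * bd (τ j) (a, b) :=
      Finset.dvd_sum fun j hj => hz j (Finset.mem_erase.mp hj).1
    have h11 := (dvd_add_left h10).mp h9
    rcases c1_bd_mem (c1_card hdet i) hab ha hb with h12 | h12
    · rw [h12, mul_one] at h11
      exact hi' h11
    · rw [h12, mul_neg, mul_one, dvd_neg] at h11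
      exact hi' h11
  · rw [Finset.card_image_of_injOn]
    · unfold cnt
      congr!
    · intro i _ j _ hij
      exact c1_inj hdet hij
  · intro t ht
    obtain ⟨i, -, rfl⟩ := Finset.mem_image.mp ht
    exact ⟨i, rfl⟩

end Pool.Agent.HT
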