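import Pool.Agent.Lib_helper59.HT.Defs2
import Pool.Agent.Lib_helper59.HT.A_expm

/-!
# Block C2: the probability that a hypertree contains a given family of triangles
-/

set_option autoImplicit false

open Finset Matrix

namespace Pool.Agent.HT

lemma c2_six {n : ℕ} (s : Finset (Fin n)) (hs : s.card = 3) :
    (Finset.univ.filter fun t : Tri n => tset t = s).card ≤ 6 := by
  classical
  obtain ⟨a, b, c, hab, hac, hbc, rfl⟩ := Finset.card_eq_three.mp hs
  have hsub : (Finset.univ.filter fun t : Tri n => tset t = {a, b, c}) ⊆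
      ({(a, b, c), (a, c, b), (b, a, c), (b, c, a), (c, a, b), (c, b, a)} : Finset (Tri n)) := by
    intro t ht
    obtain ⟨x, y, z⟩ := t
    have h := (Finset.mem_filter.mp ht).2
    simp only [tset] at h
    have hx : x ∈ ({a, b, c} : Finset (Fin n)) := h ▸ (by simp)
    have hy : y ∈ ({a, b, c} : Finset (Fin n)) := h ▸ (by simp)
    have hz : z ∈ ({a, b, c} : Finset (Fin n)) := h ▸ (by simp)
    have h3 : ({x, y, z} : Finset (Fin n)).card = 3 := by rw [h, hs]
    have hd : x ≠ y ∧ y ≠ z ∧ x ≠ z := by
      refine ⟨?_, ?_, ?_⟩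
      · rintro rfl
        have : ({x, x, z} : Finset (Fin n)).card ≤ 2 := by
          rw [Finset.insert_eq_of_mem (by simp)]
          exact Finset.card_le_two
        omega
      · rintro rfl
        have : ({x, y, y} : Finset (Fin n)).card ≤ 2 := by
          rw [show ({x, y, y} : Finset (Fin n)) = {x, y} by simp]
          exact Finset.card_le_two
        omega
      · rintro rfl
        have : ({x, y, x} : Finset (Fin n)).card ≤ 2 := by
          rw [Finset.pair_comm y x, Finset.insert_eq_of_mem (by simp)]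
          exact Finset.card_le_two
        omega
    obtain ⟨d1, d2, d3⟩ := hd
    clear h h3 ht hs
    simp only [Finset.mem_insert, Finset.mem_singleton, Prod.mk.injEq] at hx hy hz ⊢
    rcases hx with rfl | rfl | rfl <;> rcases hy with rfl | rfl | rfl <;>
      rcases hz with rfl | rfl | rfl <;> first | exact absurd rfl (by assumption) | simp
  refine (Finset.card_le_card hsub).trans ?_
  exact Finset.card_le_six

lemma c2_count {n : ℕ} (C : Finset (Finset (Fin n))) (hC : ∀ t ∈ C, t.card = 3) :
    cnt (fun t : Tri n => tset t ∈ C) ≤ 6 * C.card := by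
  classical
  unfold cnt
  have hsub : (Finset.univ.filter fun t : Tri n => tset t ∈ C) ⊆
      C.biUnion fun s => Finset.univ.filter fun t : Tri n => tset t = s := by
    intro t ht
    rw [Finset.mem_biUnion]
    exact ⟨tset t, (Finset.mem_filter.mp ht).2, by simp⟩
  have h1 := Finset.card_le_card hsub
  have h2 := Finset.card_biUnion_le_card_mul C
    (fun s => Finset.univ.filter fun t : Tri n => tset t = s) 6 (fun s hs => c2_six s (hC s hs))
  have h3 : (Finset.univ.filter fun t : Tri n => tset t ∈ C).card ≤ 6 * C.card := by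
    rw [mul_comm]; exact h1.trans h2
  convert h3

/-- BLOCK C2 -/
theorem mass_contains_pr (n : ℕ) (hn : 3 ≤ n) (C : Finset (Finset (Fin n)))
    (hC : ∀ t ∈ C, t.card = 3) :
    mass (fun τ : E' n → Tri n => ∀ t ∈ C, ∃ i, tset (τ i) = t) ≤
      (3 * Real.exp 1 / n) ^ C.card * Z n := by
  classical
  have hn' : (3 : ℝ) ≤ n := by exact_mod_cast hn
  have hn0 : (0 : ℝ) < n := by linarith
  set y : ℝ := n / 3 - 1 with hy
  have hy0 : 0 ≤ y := by rw [hy]; linarith
  have hy1 : 1 + y = n / 3 := by rw [hy]; ring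
  have hE := expm n (by omega) (fun t : Tri n => tset t ∈ C) y hy0
  have hZ : 0 ≤ Z n := Finset.sum_nonneg fun τ _ => sq_nonneg _
  have h1 : (n / 3 : ℝ) ^ C.card * mass (fun τ : E' n → Tri n => ∀ t ∈ C, ∃ i, tset (τ i) = t) ≤
      ∑ τ : E' n → Tri n, wt τ * (1 + y) ^ (cnt fun i => tset (τ i) ∈ C) := by
    unfold mass
    rw [Finset.mul_sum]
    refine Finset.sum_le_sum fun τ _ => ?_
    have hw : 0 ≤ wt τ := sq_nonneg _
    split_ifs with h
    · rw [mul_comm, hy1]
      refine mul_le_mul_of_nonneg_left (pow_le_pow_right₀ (by linarith) ?_) hw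
      -- C.card ≤ cnt
      have hsub : C ⊆ (Finset.univ.filter fun i : E' n => tset (τ i) ∈ C).image
          (fun i => tset (τ i)) := by
        intro t ht
        obtain ⟨i, hi⟩ := h t ht
        exact Finset.mem_image.mpr ⟨i, by simp [hi, ht], hi⟩
      have := (Finset.card_le_card hsub).trans Finset.card_image_le
      refine this.trans (le_of_eq ?_)
      unfold cnt
      congr!
    · rw [mul_zero]
      rw [hy1]
      positivity
  have h2 : Real.exp (y / (2 * n) * cnt fun t : Tri n => tset t ∈ C) ≤
      Real.exp 1 ^ C.card := by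
    rw [← Real.exp_nat_mul, mul_one]
    refine Real.exp_le_exp.mpr ?_
    have h3 : ((cnt fun t : Tri n => tset t ∈ C) : ℝ) ≤ 6 * C.card := by
      exact_mod_cast c2_count C hC
    calc y / (2 * n) * ((cnt fun t : Tri n => tset t ∈ C) : ℝ)
        ≤ y / (2 * n) * (6 * C.card) := by gcongr
      _ = (3 * y / n) * C.card := by field_simp; ring
      _ ≤ 1 * C.card := by
          refine mul_le_mul_of_nonneg_right ?_ (Nat.cast_nonneg _)
          rw [div_le_one hn0, hy]
          linarith
      _ = C.card := one_mul _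
  have h4 : (n / 3 : ℝ) ^ C.card * mass (fun τ : E' n → Tri n => ∀ t ∈ C, ∃ i, tset (τ i) = t) ≤
      Z n * Real.exp 1 ^ C.card :=
    h1.trans (hE.trans (mul_le_mul_of_nonneg_left h2 hZ))
  have h5 : (3 * Real.exp 1 / n) ^ C.card = ((n / 3 : ℝ) ^ C.card)⁻¹ * Real.exp 1 ^ C.card := by
    rw [← inv_pow, ← mul_pow]
    congr 1
    field_simp
  rw [h5, mul_assoc, ← mul_comm (Z n)]
  rw [le_inv_mul_iff₀ (by positivity)]
  exact h4

end Pool.Agent.HT
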