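import Pool.Agent.Lib_helper59.HT.Defs2
import Pool.Agent.Lib_helper14.HT.C1

/-!
# Block C3: no closed family with at most four members
-/

set_option autoImplicit false

open Finset Matrix

namespace Pool.Agent.HT

/-- a side of a triangle of a closed family lies in another member, which has one more vertex -/
lemma c3_step {n : ℕ} {C : Finset (Finset (Fin n))} (hC : Cl C) {a b c : Fin n}
    (hab : a ≠ b) (hac : a ≠ c) (hbc : b ≠ c) (ht : ({a, b, c} : Finset (Fin n)) ∈ C) :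
    ∃ w, w ≠ a ∧ w ≠ b ∧ w ≠ c ∧ ({a, b, w} : Finset (Fin n)) ∈ C := by
  obtain ⟨t', ht', hne, hsub⟩ := hC.2.2 _ ht {a, b}
    (by intro v hv; simp only [Finset.mem_insert, Finset.mem_singleton] at hv ⊢; tauto)
    (Finset.card_pair hab)
  have hcard := hC.2.1 t' ht'
  have ha : a ∈ t' := hsub (by simp)
  have hb : b ∈ t' := hsub (by simp)
  obtain ⟨w, hw⟩ : ∃ w, w ∈ (t'.erase a).erase b := by
    refine Finset.card_pos.mp ?_
    rw [Finset.card_erase_of_mem (Finset.mem_erase.mpr ⟨hab.symm, hb⟩),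
      Finset.card_erase_of_mem ha, hcard]
    norm_num
  rw [Finset.mem_erase, Finset.mem_erase] at hw
  have heq : ({a, b, w} : Finset (Fin n)) = t' := by
    refine Finset.eq_of_subset_of_card_le ?_ ?_
    · intro v hv
      simp only [Finset.mem_insert, Finset.mem_singleton] at hv
      rcases hv with rfl | rfl | rfl
      · exact ha
      · exact hb
      · exact hw.2.2
    · rw [hcard, Finset.card_eq_three.mpr ⟨a, b, w, hab, hw.2.1.symm, hw.1.symm, rfl⟩]
  refine ⟨w, hw.2.1, hw.1, ?_, heq ▸ ht'⟩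
  rintro rfl
  exact hne heq.symm

lemma c3_bd {n : ℕ} (x y z w : Fin n) (e : Fin n × Fin n) :
    bd (y, z, w) e - bd (x, z, w) e + bd (x, y, w) e - bd (x, y, z) e = 0 := by
  unfold bd
  simp only
  rw [c1_chi_neg x w, c1_chi_neg y w, c1_chi_neg x z]
  ring

lemma c3_p1 {n : ℕ} (a b c : Fin n) : ({b, c, a} : Finset (Fin n)) = {a, b, c} := by
  ext v
  simp only [Finset.mem_insert, Finset.mem_singleton]
  tauto

lemma c3_p2 {n : ℕ} (a b c : Fin n) : ({a, c, b} : Finset (Fin n)) = {a, b, c} := by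
  ext v
  simp only [Finset.mem_insert, Finset.mem_singleton]
  tauto

lemma c3_nm {n : ℕ} {a b c v : Fin n} (h1 : v ≠ a) (h2 : v ≠ b) (h3 : v ≠ c) :
    v ∉ ({a, b, c} : Finset (Fin n)) := by
  simp only [Finset.mem_insert, Finset.mem_singleton]
  tauto

lemma c3_ne {n : ℕ} {a b c d e f v : Fin n} (h1 : v ≠ a) (h2 : v ≠ b) (h3 : v ≠ c)
    (hv : v ∈ ({d, e, f} : Finset (Fin n))) : ({a, b, c} : Finset (Fin n)) ≠ {d, e, f} := by
  intro h
  exact c3_nm h1 h2 h3 (h ▸ hv)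

lemma c3_four {α : Type} {C : Finset α} {a b c d : α}
    (hsub : ∀ t, t = a ∨ t = b ∨ t = c ∨ t = d → t ∈ C) (h1 : a ≠ b) (h2 : a ≠ c) (h3 : a ≠ d)
    (h4 : b ≠ c) (h5 : b ≠ d) (h6 : c ≠ d) (h : C.card ≤ 4) :
    ∀ t ∈ C, t = a ∨ t = b ∨ t = c ∨ t = d := by
  classical
  have hcard4 : ({a, b, c, d} : Finset α).card = 4 := by
    rw [Finset.card_insert_of_notMem, Finset.card_insert_of_notMem, Finset.card_insert_of_notMem,
      Finset.card_singleton]
    · simpa using h6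
    · simp only [Finset.mem_insert, Finset.mem_singleton]; tauto
    · simp only [Finset.mem_insert, Finset.mem_singleton]; tauto
  have hs : ({a, b, c, d} : Finset α) ⊆ C := by
    intro t ht
    simp only [Finset.mem_insert, Finset.mem_singleton] at ht
    exact hsub t ht
  have hCeq := Finset.eq_of_subset_of_card_le hs (by rw [hcard4]; exact h)
  intro t ht
  rw [← hCeq] at ht
  simpa only [Finset.mem_insert, Finset.mem_singleton] using ht

/-- BLOCK C3 -/
theorem no_tetra_pr (n : ℕ) (τ : E' n → Tri n) (hdet : (M τ).det ≠ 0)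
    (C : Finset (Finset (Fin n))) (hC : Cl C) (h4 : C.card ≤ 4) :
    ¬ ∀ t ∈ C, ∃ i, tset (τ i) = t := by
  classical
  intro hall
  obtain ⟨t0, ht0⟩ := hC.1
  obtain ⟨x, y, z, hxy, hxz, hyz, rfl⟩ := Finset.card_eq_three.mp (hC.2.1 t0 ht0)
  obtain ⟨w1, h1x, h1y, h1z, h1⟩ := c3_step hC hxy hxz hyz ht0
  have ht0' : ({y, z, x} : Finset (Fin n)) ∈ C := by rw [c3_p1]; exact ht0
  obtain ⟨w2, h2y, h2z, h2x, h2⟩ := c3_step hC hyz hxy.symm hxz.symm ht0'
  have ht0'' : ({x, z, y} : Finset (Fin n)) ∈ C := by rw [c3_p2]; exact ht0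
  obtain ⟨w3, h3x, h3z, h3y, h3⟩ := c3_step hC hxz hxy hyz.symm ht0''
  have hsub' : ∀ t, t = ({x, y, z} : Finset (Fin n)) ∨ t = {x, y, w1} ∨ t = {y, z, w2} ∨
      t = {x, z, w3} → t ∈ C := by
    rintro t (rfl | rfl | rfl | rfl)
    · exact ht0
    · exact h1
    · exact h2
    · exact h3
  have hne01 : ({x, y, z} : Finset (Fin n)) ≠ {x, y, w1} := c3_ne h1x h1y h1z (by simp)
  have hne02 : ({x, y, z} : Finset (Fin n)) ≠ {y, z, w2} := c3_ne h2x h2y h2z (by simp)
  have hne03 : ({x, y, z} : Finset (Fin n)) ≠ {x, z, w3} := c3_ne h3x h3y h3z (by simp)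
  have hne12 : ({x, y, w1} : Finset (Fin n)) ≠ {y, z, w2} :=
    (c3_ne hxy hxz h2x.symm (by simp)).symm
  have hne13 : ({x, y, w1} : Finset (Fin n)) ≠ {x, z, w3} :=
    (c3_ne hxy.symm hyz h3y.symm (by simp)).symm
  have hne23 : ({y, z, w2} : Finset (Fin n)) ≠ {x, z, w3} :=
    (c3_ne hxy.symm hyz h3y.symm (by simp)).symm
  have hCeq := c3_four hsub' hne01 hne02 hne03 hne12 hne13 hne23 h4
  have hw13 : w1 = w3 := by
    have h1' : ({x, w1, y} : Finset (Fin n)) ∈ C := by rw [c3_p2]; exact h1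
    obtain ⟨w, hw1, hw2, hw3, hw⟩ := c3_step hC h1x.symm hxy h1y h1'
    have hyn : y ∉ ({x, w1, w} : Finset (Fin n)) := c3_nm hxy.symm h1y.symm hw3.symm
    rcases hCeq _ hw with h | h | h | h
    · exact absurd (h ▸ (by simp) : y ∈ ({x, w1, w} : Finset (Fin n))) hyn
    · exact absurd (h ▸ (by simp) : y ∈ ({x, w1, w} : Finset (Fin n))) hyn
    · exact absurd (h ▸ (by simp) : y ∈ ({x, w1, w} : Finset (Fin n))) hyn
    · by_contra h13
      exact c3_nm h1x h1z h13 (h ▸ (by simp))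
  have hw12 : w1 = w2 := by
    have h1' : ({y, w1, x} : Finset (Fin n)) ∈ C := by rw [c3_p1]; exact h1
    obtain ⟨w, hw1, hw2, hw3, hw⟩ := c3_step hC h1y.symm hxy.symm h1x h1'
    have hxn : x ∉ ({y, w1, w} : Finset (Fin n)) := c3_nm hxy h1x.symm hw3.symm
    rcases hCeq _ hw with h | h | h | h
    · exact absurd (h ▸ (by simp) : x ∈ ({y, w1, w} : Finset (Fin n))) hxn
    · exact absurd (h ▸ (by simp) : x ∈ ({y, w1, w} : Finset (Fin n))) hxn
    · by_contra h12
      exact c3_nm h1y h1z h12 (h ▸ (by simp))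
    · exact absurd (h ▸ (by simp) : x ∈ ({y, w1, w} : Finset (Fin n))) hxn
  subst hw13
  subst hw12
  obtain ⟨i0, hi0⟩ := hall _ ht0
  obtain ⟨i1, hi1⟩ := hall _ h1
  obtain ⟨i2, hi2⟩ := hall _ h2
  obtain ⟨i3, hi3⟩ := hall _ h3
  obtain ⟨s0, hs0, hb0⟩ := c1_sign (t := τ i0) (t' := (x, y, z)) hi0 (c1_card hdet i0)
  obtain ⟨s1, hs1, hb1⟩ := c1_sign (t := τ i1) (t' := (x, y, w1)) hi1 (c1_card hdet i1)
  obtain ⟨s2, hs2, hb2⟩ := c1_sign (t := τ i2) (t' := (y, z, w1)) hi2 (c1_card hdet i2)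
  obtain ⟨s3, hs3, hb3⟩ := c1_sign (t := τ i3) (t' := (x, z, w1)) hi3 (c1_card hdet i3)
  have hsq : ∀ s : ℤ, (s = 1 ∨ s = -1) → s * s = 1 := by
    rintro s (rfl | rfl) <;> norm_num
  have hi01 : i0 ≠ i1 := by rintro rfl; exact hne01 (hi0.symm.trans hi1)
  have hi02 : i0 ≠ i2 := by rintro rfl; exact hne02 (hi0.symm.trans hi2)
  have hi03 : i0 ≠ i3 := by rintro rfl; exact hne03 (hi0.symm.trans hi3)
  have h0 := c1_indep hdet (Pi.single i2 s2 - Pi.single i3 s3 + Pi.single i1 s1 -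
    Pi.single i0 s0) (fun e => by
    have hsg : ∀ (i : E' n) (s : ℤ), ∑ j, (Pi.single i s : E' n → ℤ) j * M τ j e =
        s * bd (τ i) e.1 := by
      intro i s
      rw [Finset.sum_eq_single i]
      · rw [Pi.single_eq_same]; rfl
      · intro b _ hb
        rw [Pi.single_eq_of_ne hb, zero_mul]
      · intro hb; exact absurd (Finset.mem_univ _) hb
    simp only [Pi.sub_apply, Pi.add_apply, sub_mul, add_mul, Finset.sum_sub_distrib,
      Finset.sum_add_distrib]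
    rw [hsg, hsg, hsg, hsg, hb0, hb1, hb2, hb3, ← mul_assoc, ← mul_assoc, ← mul_assoc, ← mul_assoc,
      hsq _ hs0, hsq _ hs1, hsq _ hs2, hsq _ hs3, one_mul, one_mul, one_mul, one_mul]
    exact c3_bd x y z w1 e.1)
  have h5 := congrFun h0 i0
  simp only [Pi.sub_apply, Pi.add_apply, Pi.single_eq_same, Pi.zero_apply,
    Pi.single_eq_of_ne hi01, Pi.single_eq_of_ne hi02, Pi.single_eq_of_ne hi03] at h5
  rcases hs0 with rfl | rfl <;> norm_num at h5

end Pool.Agent.HT
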