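import Pool.Agent.Lib_helper59.HT.Defs2
import Pool.Agent.Lib_helper59.HT.A_closed_count
import Pool.Agent.Lib_helper59.HT.A_cycle_closed
import Pool.Agent.Lib_helper59.HT.A_mass_contains
import Pool.Agent.Lib_helper59.HT.A_no_tetra

/-!
# Block C7: no small mod `p` cycles
-/

set_option autoImplicit false

open Finset Matrix

namespace Pool.Agent.HT

lemma c7_exists_min {n : ℕ} (C : Finset (Finset (Fin n))) (hC : Cl C) :
    ∃ C' ⊆ C, MinCl C' := by
  classical
  induction h : C.card using Nat.strong_induction_on generalizing C with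
  | _ m ih =>
    by_cases hm : ∀ C' ⊆ C, Cl C' → C' = C
    · exact ⟨C, subset_rfl, hC, hm⟩
    · push Not at hm
      obtain ⟨C', hsub, hCl, hne⟩ := hm
      have hlt : C'.card < C.card := Finset.card_lt_card (lt_of_le_of_ne hsub hne)
      obtain ⟨C'', h1, h2⟩ := ih C'.card (by omega) C' hCl rfl
      exact ⟨C'', h1.trans hsub, h2⟩

lemma c7_Nr_le (n : ℕ) : (Nr n : ℝ) ≤ (n : ℝ) ^ 2 := by
  have h : Nr n ≤ n ^ 2 := by
    unfold Nr
    refine (Fintype.card_subtype_le _).trans ?_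
    rw [Fintype.card_prod, Fintype.card_fin]
    exact le_of_eq (by ring)
  exact_mod_cast h

/-- BLOCK C7 -/
theorem no_small_cycles_pr : ∃ δ : ℝ, 0 < δ ∧ ∀ ε : ℝ, 0 < ε → ∃ N : ℕ, ∀ n : ℕ, N ≤ n →
    mass (fun τ : E' n → Tri n => ∃ p : ℕ, p.Prime ∧ ∃ c : E' n → ℤ, (∃ i, ¬ (p : ℤ) ∣ c i) ∧
      (∀ e, (p : ℤ) ∣ ∑ i, c i * M τ i e) ∧
      (cnt (fun i => ¬ (p : ℤ) ∣ c i) : ℝ) < δ * Nr n) ≤ ε * Z n := by
  classical
  obtain ⟨δ, hδ, hcc⟩ := closed_count (3 * Real.exp 1) (by positivity)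
  refine ⟨δ, hδ, fun ε hε => ?_⟩
  obtain ⟨N, hN⟩ := hcc ε hε
  refine ⟨max N 3, fun n hn => ?_⟩
  have hn3 : 3 ≤ n := le_trans (le_max_right _ _) hn
  have hnN : N ≤ n := le_trans (le_max_left _ _) hn
  have hZ : 0 ≤ Z n := Finset.sum_nonneg fun τ _ => sq_nonneg _
  set S : Finset (Finset (Finset (Fin n))) :=
    (Finset.univ : Finset (Finset (Finset (Fin n)))).filter
      (fun C => MinCl C ∧ 5 ≤ C.card ∧ (C.card : ℝ) ≤ δ * (n : ℝ) ^ 2) with hS
  have h1 : mass (fun τ : E' n → Tri n => ∃ p : ℕ, p.Prime ∧ ∃ c : E' n → ℤ,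
      (∃ i, ¬ (p : ℤ) ∣ c i) ∧ (∀ e, (p : ℤ) ∣ ∑ i, c i * M τ i e) ∧
      (cnt (fun i => ¬ (p : ℤ) ∣ c i) : ℝ) < δ * Nr n) ≤
      ∑ C ∈ S, mass (fun τ : E' n → Tri n => ∀ t ∈ C, ∃ i, tset (τ i) = t) := by
    unfold mass
    rw [Finset.sum_comm]
    refine Finset.sum_le_sum fun τ _ => ?_
    have hw : 0 ≤ wt τ := sq_nonneg _
    have hnn : ∀ C ∈ S, (0 : ℝ) ≤ (@ite ℝ
        ((fun τ : E' n → Tri n => ∀ t ∈ C, ∃ i, tset (τ i) = t) τ)
        (Classical.propDecidable _) (wt τ) 0) := by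
      intro C _
      split_ifs
      · exact hw
      · exact le_refl _
    by_cases hdet : (M τ).det = 0
    · have : wt τ = 0 := by unfold wt; rw [hdet]; simp
      rw [this]
      simp
    · split_ifs with h
      · obtain ⟨p, hp, c, hc1, hc2, hc3⟩ := h
        obtain ⟨C, hCl, hcard, hmem⟩ := cycle_closed n p hp τ hdet c hc1 hc2
        obtain ⟨C', hsub, hmin⟩ := c7_exists_min C hCl
        have hmem' : ∀ t ∈ C', ∃ i, tset (τ i) = t := fun t ht => hmem t (hsub ht)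
        have hC'S : C' ∈ S := by
          rw [hS, Finset.mem_filter]
          refine ⟨Finset.mem_univ _, hmin, ?_, ?_⟩
          · by_contra h5
            exact no_tetra n τ hdet C' hmin.1 (by omega) hmem'
          · have h6 : (C'.card : ℝ) ≤ C.card := by exact_mod_cast Finset.card_le_card hsub
            rw [hcard] at h6
            have h7 := c7_Nr_le n
            have h8 : δ * (Nr n : ℝ) ≤ δ * (n : ℝ) ^ 2 := by gcongr
            linarith
        refine le_trans ?_ (Finset.single_le_sum hnn hC'S)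
        rw [if_pos hmem']
      · exact Finset.sum_nonneg hnn
  refine h1.trans ?_
  calc ∑ C ∈ S, mass (fun τ : E' n → Tri n => ∀ t ∈ C, ∃ i, tset (τ i) = t)
      ≤ ∑ C ∈ S, (3 * Real.exp 1 / n) ^ C.card * Z n := by
        refine Finset.sum_le_sum fun C hC => ?_
        exact mass_contains n hn3 C (Finset.mem_filter.mp hC).2.1.1.2.1
    _ = (∑ C ∈ S, (3 * Real.exp 1 / n) ^ C.card) * Z n := by rw [Finset.sum_mul]
    _ ≤ ε * Z n := mul_le_mul_of_nonneg_right (hN n hnN) hZ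

end Pool.Agent.HT
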